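import Pool.Agent.Work.MP_d01e83_pr.Defs

set_option autoImplicit false

open MeasureTheory ProbabilityTheory Filter Topology
open scoped ENNReal

namespace Pool.Agent.Work.MP_d01e83_pr

lemma one_sub_inv_nonneg (k : ℕ) : (0:ℝ) ≤ 1 - 1 / (k : ℝ) := by
  rcases Nat.eq_zero_or_pos k with rfl | hk
  · simp
  · have : (1:ℝ) ≤ k := by exact_mod_cast hk
    have h2 : 1 / (k:ℝ) ≤ 1 := by
      rw [div_le_one (by linarith)]; exact this
    linarith

instance (k : ℕ) : IsProbabilityMeasure (moveLaw k) := by
  constructor
  simp only [moveLaw, Measure.coe_add, Measure.coe_smul, Pi.add_apply, Pi.smul_apply,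
    measure_univ, smul_eq_mul, mul_one]
  rw [← ENNReal.ofReal_add (by positivity) (one_sub_inv_nonneg k)]
  simp

lemma moveLaw_true (k : ℕ) : moveLaw k {true} = ENNReal.ofReal (1 / (k : ℝ)) := by
  simp [moveLaw]

lemma moveLaw_false (k : ℕ) : moveLaw k {false} = ENNReal.ofReal (1 - 1 / (k : ℝ)) := by
  simp [moveLaw]

instance : IsProbabilityMeasure busLaw := by
  unfold busLaw; infer_instance

lemma bus_pos (x : ℕ → Bool) (k : ℕ) : 1 ≤ bus x k := by
  induction k with
  | zero => simp [bus]
  | succ k ih => simp only [bus]; split_ifs <;> omega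

lemma bus_le (x : ℕ → Bool) (k : ℕ) (hk : 1 ≤ k) : bus x k ≤ k := by
  induction k with
  | zero => omega
  | succ k ih =>
    simp only [bus]
    split_ifs
    · exact le_rfl
    · rcases Nat.eq_zero_or_pos k with rfl | h
      · simp [bus]
      · exact (ih h).trans (Nat.le_succ k)

lemma measurable_bus (k : ℕ) : Measurable (fun x : ℕ → Bool => bus x k) := by
  induction k with
  | zero => simp only [bus]; exact measurable_const
  | succ k ih =>
    simp only [bus]
    refine Measurable.ite ?_ measurable_const ih
    exact measurableSet_eq_fun (measurable_pi_apply (k+1)) measurable_const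

lemma bus_eq_iff (x : ℕ → Bool) (k j : ℕ) (hj : 1 ≤ j) (hjk : j ≤ k) :
    bus x k = j ↔ (j = 1 ∨ x j = true) ∧ ∀ i ∈ Finset.Ioc j k, x i = false := by
  induction k, hjk using Nat.le_induction with
  | base =>
    obtain ⟨j, rfl⟩ : ∃ j', j = j' + 1 := ⟨j - 1, by omega⟩
    simp only [bus, Finset.Ioc_self, Finset.notMem_empty, false_imp_iff, implies_true, and_true]
    by_cases h : x (j+1) = true
    · simp [h]
    · simp only [h]
      rcases Nat.eq_zero_or_pos j with rfl | hj'
      · simp [bus]
      · have := bus_le x j hj'
        constructor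
        · intro h'; simp at h'; omega
        · intro h'; rcases h' with h' | h'
          · omega
          · simp at h'
  | succ k hk ih =>
    simp only [bus]
    by_cases h : x (k+1) = true
    · simp only [h, if_true]
      constructor
      · intro h'; omega
      · rintro ⟨_, h'⟩
        have := h' (k+1) (by simp; omega)
        rw [h] at this; exact absurd this (by simp)
    · simp only [h]
      rw [if_neg (by simp), ih]
      have hf : x (k+1) = false := by simpa using h
      constructor
      · rintro ⟨h1, h2⟩
        refine ⟨h1, fun i hi => ?_⟩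
        rw [Finset.mem_Ioc] at hi
        rcases Nat.lt_or_ge i (k+1) with hlt | hge
        · exact h2 i (by rw [Finset.mem_Ioc]; omega)
        · have : i = k+1 := by omega
          rw [this]; exact hf
      · rintro ⟨h1, h2⟩
        exact ⟨h1, fun i hi => h2 i (by rw [Finset.mem_Ioc] at *; omega)⟩

lemma prod_telescope (j k : ℕ) (hj : 1 ≤ j) (hjk : j ≤ k) :
    ENNReal.ofReal (1 / (j:ℝ)) * ∏ i ∈ Finset.Ioc j k, ENNReal.ofReal (1 - 1 / (i:ℝ))
      = ENNReal.ofReal (1 / (k:ℝ)) := by
  induction k, hjk using Nat.le_induction with
  | base => simp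
  | succ k hk ih =>
    rw [← Finset.insert_Ioc_right_eq_Ioc_add_one hk, Finset.prod_insert (by simp), mul_left_comm, ih,
      ← ENNReal.ofReal_mul (one_sub_inv_nonneg _)]
    congr 1
    have h1 : (0:ℝ) < k := by exact_mod_cast (by omega : 0 < k)
    push_cast
    field_simp
    ring

/-- A passenger is uniformly distributed on the buses `1, ..., k` at time `k`. -/
lemma law_bus (k j : ℕ) (hj : 1 ≤ j) (hjk : j ≤ k) :
    Measure.infinitePi moveLaw {x | bus x k = j} = ENNReal.ofReal (1 / (k:ℝ)) := by
  have hset : {x : ℕ → Bool | bus x k = j}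
      = Set.pi (Finset.Icc j k : Finset ℕ) (fun i => if i = j then (if j = 1 then Set.univ else {true})
          else ({false} : Set Bool)) := by
    ext x
    simp only [Set.mem_ofPred_eq, bus_eq_iff x k j hj hjk, Set.mem_pi, Finset.coe_Icc, Set.mem_Icc]
    constructor
    · rintro ⟨h1, h2⟩ i hi
      by_cases hij : i = j
      · subst hij
        rw [if_pos rfl]
        split_ifs with h
        · trivial
        · rcases h1 with h1 | h1
          · exact absurd h1 h
          · simpa using h1
      · rw [if_neg hij]
        exact h2 i (by rw [Finset.mem_Ioc]; omega)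
    · intro h
      refine ⟨?_, fun i hi => ?_⟩
      · have := h j ⟨le_rfl, hjk⟩
        rw [if_pos rfl] at this
        split_ifs at this with h1
        · exact Or.inl h1
        · exact Or.inr (by simpa using this)
      · rw [Finset.mem_Ioc] at hi
        have := h i ⟨by omega, hi.2⟩
        rw [if_neg (by omega)] at this
        simpa using this
  rw [hset, Measure.infinitePi_pi]
  · rw [← Finset.Ioc_insert_left hjk, Finset.prod_insert (by simp)]
    have h1 : moveLaw j (if j = j then (if j = 1 then Set.univ else {true}) else ({false} : Set Bool))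
        = ENNReal.ofReal (1 / (j:ℝ)) := by
      rw [if_pos rfl]
      split_ifs with h
      · subst h
        rw [measure_univ]; simp
      · exact moveLaw_true j
    rw [h1, ← prod_telescope j k hj hjk]
    congr 1
    refine Finset.prod_congr rfl fun i hi => ?_
    rw [Finset.mem_Ioc] at hi
    rw [if_neg (by omega), moveLaw_false]
  · intro i _
    split_ifs <;> measurability

end Pool.Agent.Work.MP_d01e83_pr
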