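import Mathlib

set_option autoImplicit false

open MeasureTheory ProbabilityTheory Filter Topology
open scoped ENNReal

namespace Pool.Agent.Work.MP_d01e83_pr

/-- Law of one move indicator at time `k`: `true` (the passenger moves to the new bus `k`)
with probability `1/k`, `false` (the passenger stays) with probability `1 - 1/k`. -/
noncomputable def moveLaw (k : ℕ) : Measure Bool :=
  ENNReal.ofReal (1 / (k : ℝ)) • Measure.dirac true
    + ENNReal.ofReal (1 - 1 / (k : ℝ)) • Measure.dirac false

/-- A sample point: `ω i k = true` means that passenger `i` moves to bus `k` at time `k`. -/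
abbrev Moves : Type := ℕ → ℕ → Bool

/-- The law of the moves: all move indicators are independent and passenger `i` moves at time `k`
with probability `1/k`. -/
noncomputable def busLaw : Measure Moves :=
  Measure.infinitePi fun _ : ℕ => Measure.infinitePi moveLaw

/-- The bus occupied at time `k` by a passenger with move indicators `x`; everybody starts
in bus `1` (at time `1`), and a passenger who moves at time `k` moves to bus `k`. -/
def bus (x : ℕ → Bool) : ℕ → ℕ
  | 0 => 1
  | (k + 1) => if x (k + 1) = true then k + 1 else bus x k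

/-- At time `k` the passengers `1, ..., n` occupy `n` distinct buses. -/
def Detached (n k : ℕ) (ω : Moves) : Prop :=
  Set.InjOn (fun i => bus (ω i) k) (Set.Icc 1 n)

/-- The first detachment time of the passengers `1, ..., n` (infinite if there is none). -/
noncomputable def firstDetachment (n : ℕ) (ω : Moves) : ℕ∞ :=
  ⨅ k ∈ {k : ℕ | 1 ≤ k ∧ Detached n k ω}, (k : ℕ∞)

/-- `M(k)`, the largest `n ≥ 1` whose first detachment time is at most `k`. -/
noncomputable def maxGroup (k : ℕ) (ω : Moves) : ℕ :=
  sSup {n : ℕ | 1 ≤ n ∧ firstDetachment n ω ≤ k}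

/-- Linear interpolation of an integer sequence between consecutive integers. -/
noncomputable def interp (a : ℕ → ℕ) (t : ℝ) : ℝ :=
  (a ⌊t⌋₊ : ℝ) + (t - ⌊t⌋₊) * ((a (⌊t⌋₊ + 1) : ℝ) - (a ⌊t⌋₊ : ℝ))

/-- `M(t)` for real `t ≥ 1`, by linear interpolation. -/
noncomputable def maxGroupReal (t : ℝ) (ω : Moves) : ℝ := interp (fun k => maxGroup k ω) t

end Pool.Agent.Work.MP_d01e83_pr
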