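import Pool.Agent.Work.MP_d01e83_pr.Indep

set_option autoImplicit false

open MeasureTheory ProbabilityTheory Filter Topology
open scoped ENNReal

namespace Pool.Agent.Work.MP_d01e83_pr

lemma Detached.mono {n n' k : ℕ} {ω : Moves} (h : Detached n k ω) (hn : n' ≤ n) :
    Detached n' k ω :=
  Set.InjOn.mono (Set.Icc_subset_Icc le_rfl hn) h

lemma detached_one (k : ℕ) (ω : Moves) : Detached 1 k ω := by
  intro i hi j hj _
  simp only [Set.mem_Icc] at hi hj
  omega

lemma detached_zero (k : ℕ) (ω : Moves) : Detached 0 k ω :=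
  (detached_one k ω).mono (by omega)

lemma Detached.le {n k : ℕ} {ω : Moves} (h : Detached n k ω) (hk : 1 ≤ k) : n ≤ k := by
  have hmaps : Set.MapsTo (fun i => bus (ω i) k) (Finset.Icc 1 n : Finset ℕ)
      (Finset.Icc 1 k : Finset ℕ) := by
    intro i _
    simp only [Finset.coe_Icc, Set.mem_Icc]
    exact ⟨bus_pos _ _, bus_le _ _ hk⟩
  have := Finset.card_le_card_of_injOn _ hmaps (by simpa [Detached] using h)
  simpa using this

lemma measurableSet_detached (n k : ℕ) : MeasurableSet {ω : Moves | Detached n k ω} := by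
  have : {ω : Moves | Detached n k ω}
      = ⋂ i ∈ Set.Icc 1 n, ⋂ j ∈ Set.Icc 1 n, {ω : Moves | bus (ω i) k = bus (ω j) k → i = j} := by
    ext ω
    simp only [Detached, Set.InjOn, Set.mem_ofPred_eq, Set.mem_iInter]
  rw [this]
  refine MeasurableSet.biInter (Set.to_countable _) fun i _ =>
    MeasurableSet.biInter (Set.to_countable _) fun j _ => ?_
  by_cases hij : i = j
  · simp [hij]
  · have h2 : {ω : Moves | bus (ω i) k = bus (ω j) k → i = j}
        = {ω : Moves | bus (ω i) k = bus (ω j) k}ᶜ := by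
      ext ω; simp [hij]
    rw [h2]
    exact (measurableSet_eq_fun ((measurable_bus k).comp (measurable_pi_apply i))
      ((measurable_bus k).comp (measurable_pi_apply j))).compl

lemma depOn_detached (n k : ℕ) : DepOn (Finset.Icc 1 n) {ω : Moves | Detached n k ω} := by
  intro ω ω' h
  simp only [Set.mem_ofPred_eq, Detached]
  constructor
  · intro h1 i hi j hj hij
    refine h1 hi hj ?_
    simp only [h i (by simpa using hi), h j (by simpa using hj)]
    exact hij
  · intro h1 i hi j hj hij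
    refine h1 hi hj ?_
    simp only [← h i (by simpa using hi), ← h j (by simpa using hj)]
    exact hij

lemma firstDetachment_le_iff (n k : ℕ) (ω : Moves) :
    firstDetachment n ω ≤ k ↔ ∃ j, 1 ≤ j ∧ j ≤ k ∧ Detached n j ω := by
  unfold firstDetachment
  constructor
  · intro h
    by_contra hcon
    push Not at hcon
    have : ((k + 1 : ℕ) : ℕ∞) ≤ ⨅ k ∈ {k : ℕ | 1 ≤ k ∧ Detached n k ω}, (k : ℕ∞) := by
      refine le_iInf₂ fun j hj => ?_
      have hj' : k < j := by
        by_contra hjk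
        exact hcon j hj.1 (not_lt.1 hjk) hj.2
      exact_mod_cast hj'
    have h2 := this.trans h
    have h3 : k + 1 ≤ k := by exact_mod_cast h2
    omega
  · rintro ⟨j, h1, h2, h3⟩
    exact (iInf₂_le j ⟨h1, h3⟩).trans (by exact_mod_cast h2)

lemma bddAbove_group (k : ℕ) (ω : Moves) :
    BddAbove {n : ℕ | 1 ≤ n ∧ firstDetachment n ω ≤ k} := by
  refine ⟨k, fun n hn => ?_⟩
  obtain ⟨j, h1, h2, h3⟩ := (firstDetachment_le_iff n k ω).1 hn.2
  exact (h3.le h1).trans h2

lemma le_maxGroup_iff (n k : ℕ) (ω : Moves) (hk : 1 ≤ k) :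
    n ≤ maxGroup k ω ↔ ∃ j, 1 ≤ j ∧ j ≤ k ∧ Detached n j ω := by
  have hne : {n : ℕ | 1 ≤ n ∧ firstDetachment n ω ≤ k}.Nonempty :=
    ⟨1, le_rfl, (firstDetachment_le_iff 1 k ω).2 ⟨1, le_rfl, hk, detached_one 1 ω⟩⟩
  constructor
  · intro h
    have hmem := Nat.sSup_mem hne (bddAbove_group k ω)
    obtain ⟨j, h1, h2, h3⟩ := (firstDetachment_le_iff _ k ω).1 hmem.2
    exact ⟨j, h1, h2, h3.mono h⟩
  · rintro ⟨j, h1, h2, h3⟩
    rcases Nat.eq_zero_or_pos n with rfl | hn
    · exact Nat.zero_le _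
    · exact le_csSup (bddAbove_group k ω) ⟨hn, (firstDetachment_le_iff n k ω).2 ⟨j, h1, h2, h3⟩⟩

lemma maxGroup_zero (ω : Moves) : maxGroup 0 ω = 0 := by
  unfold maxGroup
  have : {n : ℕ | 1 ≤ n ∧ firstDetachment n ω ≤ (0 : ℕ)} = ∅ := by
    ext n
    simp only [Set.mem_ofPred_eq, Set.mem_empty_iff_false, iff_false, not_and]
    intro _ h
    obtain ⟨j, h1, h2, _⟩ := (firstDetachment_le_iff n 0 ω).1 h
    omega
  rw [this, csSup_empty]; rfl

lemma maxGroup_mono (ω : Moves) : Monotone (fun k => maxGroup k ω) := by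
  intro k k' hkk'
  simp only
  rcases Nat.eq_zero_or_pos k with rfl | hk
  · rw [maxGroup_zero]; exact Nat.zero_le _
  · rw [le_maxGroup_iff _ _ _ (hk.trans_le hkk')]
    obtain ⟨j, h1, h2, h3⟩ := (le_maxGroup_iff _ k ω hk).1 le_rfl
    exact ⟨j, h1, h2.trans hkk', h3⟩

lemma measurableSet_le_maxGroup (n k : ℕ) : MeasurableSet {ω : Moves | n ≤ maxGroup k ω} := by
  rcases Nat.eq_zero_or_pos k with rfl | hk
  · simp only [maxGroup_zero]; exact MeasurableSet.const _
  · have : {ω : Moves | n ≤ maxGroup k ω}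
        = ⋃ j ∈ Set.Icc 1 k, {ω : Moves | Detached n j ω} := by
      ext ω
      simp only [Set.mem_ofPred_eq, le_maxGroup_iff _ _ _ hk, Set.mem_iUnion, Set.mem_Icc,
        exists_prop]
      constructor
      · rintro ⟨j, h1, h2, h3⟩; exact ⟨j, ⟨h1, h2⟩, h3⟩
      · rintro ⟨j, ⟨h1, h2⟩, h3⟩; exact ⟨j, h1, h2, h3⟩
    rw [this]
    exact MeasurableSet.biUnion (Set.to_countable _) fun j _ => measurableSet_detached n j

lemma measurable_maxGroup (k : ℕ) : Measurable (maxGroup k) :=
  measurable_of_Ici fun n => measurableSet_le_maxGroup n k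

/-- Union bound: the passengers `1, ..., n` are not detached at time `k` with probability at
most `n^2/k`. -/
lemma prob_not_detached_le (n k : ℕ) (hk : 1 ≤ k) :
    busLaw {ω : Moves | ¬ Detached n k ω} ≤ ENNReal.ofReal ((n:ℝ)^2 / k) := by
  have hsub : {ω : Moves | ¬ Detached n k ω}
      ⊆ ⋃ i ∈ Finset.Icc 1 n, ⋃ j ∈ (Finset.Icc 1 n).erase i,
        Set.univ ∩ {ω : Moves | bus (ω i) k = bus (ω j) k} := by
    intro ω hω
    simp only [Set.mem_ofPred_eq, Detached, Set.InjOn, not_forall] at hω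
    obtain ⟨i, hi, j, hj, hij, hne⟩ := hω
    simp only [Set.mem_iUnion, exists_prop]
    refine ⟨i, by simpa using hi, j, ?_, Set.mem_univ _, hij⟩
    rw [Finset.mem_erase]
    exact ⟨fun h => hne h.symm, by simpa using hj⟩
  refine (measure_mono hsub).trans ?_
  refine (measure_biUnion_finset_le _ _).trans ?_
  have h1 : ∀ i ∈ Finset.Icc 1 n, busLaw (⋃ j ∈ (Finset.Icc 1 n).erase i,
        Set.univ ∩ {ω : Moves | bus (ω i) k = bus (ω j) k})
      ≤ (n : ℝ≥0∞) * ENNReal.ofReal (1 / (k:ℝ)) := by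
    intro i _
    refine (measure_biUnion_finset_le _ _).trans ?_
    have h2 : ∀ j ∈ (Finset.Icc 1 n).erase i,
        busLaw (Set.univ ∩ {ω : Moves | bus (ω i) k = bus (ω j) k})
          = ENNReal.ofReal (1 / (k:ℝ)) := by
      intro j hj
      rw [Finset.mem_erase] at hj
      rw [prob_inter_same_bus {j} Set.univ MeasurableSet.univ (fun _ _ _ => Iff.rfl) i j k
        (by simpa using hj.1.symm) (by simp) hk]
      simp
    rw [Finset.sum_congr rfl h2, Finset.sum_const, nsmul_eq_mul]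
    gcongr
    exact_mod_cast (Finset.card_erase_le).trans (by simp)
  refine (Finset.sum_le_sum h1).trans ?_
  rw [Finset.sum_const, nsmul_eq_mul]
  simp only [Nat.card_Icc, add_tsub_cancel_right]
  rw [← ENNReal.ofReal_natCast, ← ENNReal.ofReal_mul (by positivity),
    ← ENNReal.ofReal_mul (by positivity)]
  apply le_of_eq
  congr 1
  ring

end Pool.Agent.Work.MP_d01e83_pr
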