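import Pool.Agent.Work.MP_d01e83_pr.Basic

set_option autoImplicit false

open MeasureTheory ProbabilityTheory Filter Topology
open scoped ENNReal

namespace Pool.Agent.Work.MP_d01e83_pr

/-- `E` depends only on the passengers in `S`. -/
def DepOn (S : Finset ℕ) (E : Set Moves) : Prop :=
  ∀ ω ω' : Moves, (∀ l ∈ S, ω l = ω' l) → (ω ∈ E ↔ ω' ∈ E)

lemma DepOn.mono {S T : Finset ℕ} {E : Set Moves} (h : DepOn S E) (hST : S ⊆ T) : DepOn T E :=
  fun ω ω' h' => h ω ω' fun l hl => h' l (hST hl)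

lemma DepOn.inter {S : Finset ℕ} {E F : Set Moves} (h : DepOn S E) (h' : DepOn S F) :
    DepOn S (E ∩ F) := fun ω ω' hω => by
  simp only [Set.mem_inter_iff, h ω ω' hω, h' ω ω' hω]

lemma DepOn.exists_preimage {S : Finset ℕ} {E : Set Moves} (h : DepOn S E)
    (hE : MeasurableSet E) :
    ∃ A : Set (S → ℕ → Bool), MeasurableSet A ∧ E = (fun ω : Moves => fun l : S => ω l) ⁻¹' A := by
  classical
  let ext : (S → ℕ → Bool) → Moves := fun y l => if hl : l ∈ S then y ⟨l, hl⟩ else fun _ => false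
  have hext : Measurable ext := by
    refine measurable_pi_iff.2 fun l => ?_
    by_cases hl : l ∈ S
    · simp only [ext, hl, dif_pos]; exact measurable_pi_apply _
    · simp only [ext, hl, dif_neg, not_false_eq_true]; exact measurable_const
  refine ⟨ext ⁻¹' E, hext hE, ?_⟩
  ext ω
  simp only [Set.mem_preimage]
  refine h ω _ fun l hl => ?_
  simp [ext, hl]

lemma indepFun_restrict_eval (S : Finset ℕ) (i : ℕ) (hi : i ∉ S) :
    IndepFun (fun ω : Moves => fun l : S => ω l) (fun ω : Moves => ω i) busLaw := by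
  have hind : iIndepFun (fun (l : ℕ) (ω : Moves) => ω l) busLaw := by
    unfold busLaw
    exact iIndepFun_infinitePi (X := fun _ x => x) (fun _ => measurable_id)
  have := hind.indepFun_finset S {i} (by simpa using hi) (fun l => measurable_pi_apply l)
  exact this.comp (φ := id) (ψ := fun y : (({i} : Finset ℕ) → ℕ → Bool) => y ⟨i, by simp⟩)
    measurable_id (measurable_pi_apply _)

lemma map_eval_busLaw (i : ℕ) :
    busLaw.map (fun ω : Moves => ω i) = Measure.infinitePi moveLaw := by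
  unfold busLaw
  exact Measure.infinitePi_map_eval _ i

lemma law_bus' (i k j : ℕ) (hj : 1 ≤ j) (hjk : j ≤ k) :
    busLaw {ω | bus (ω i) k = j} = ENNReal.ofReal (1 / (k:ℝ)) := by
  rw [← law_bus k j hj hjk, ← map_eval_busLaw i, Measure.map_apply (measurable_pi_apply i)]
  · rfl
  · exact measurableSet_eq_fun (measurable_bus k) measurable_const

/-- Passenger `i ∉ S` is in the same bus as passenger `j ∈ S` with probability `1/k`,
independently of what concerns only the passengers in `S`. -/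
lemma prob_inter_same_bus (S : Finset ℕ) (E : Set Moves) (hE : MeasurableSet E) (hdep : DepOn S E)
    (i j k : ℕ) (hi : i ∉ S) (hj : j ∈ S) (hk : 1 ≤ k) :
    busLaw (E ∩ {ω | bus (ω i) k = bus (ω j) k}) = busLaw E * ENNReal.ofReal (1 / (k:ℝ)) := by
  have hmj : ∀ b : ℕ, MeasurableSet {ω : Moves | bus (ω j) k = b} := fun b =>
    measurableSet_eq_fun ((measurable_bus k).comp (measurable_pi_apply j)) measurable_const
  have hmi : ∀ b : ℕ, MeasurableSet {ω : Moves | bus (ω i) k = b} := fun b =>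
    measurableSet_eq_fun ((measurable_bus k).comp (measurable_pi_apply i)) measurable_const
  have hdisj : Set.PairwiseDisjoint ((Finset.Icc 1 k : Finset ℕ) : Set ℕ)
      (fun b => E ∩ {ω : Moves | bus (ω j) k = b}) := by
    intro b _ b' _ hbb'
    refine Set.disjoint_left.2 fun ω h1 h2 => hbb' ?_
    exact h1.2.symm.trans h2.2
  have hE' : busLaw E = ∑ b ∈ Finset.Icc 1 k, busLaw (E ∩ {ω : Moves | bus (ω j) k = b}) := by
    rw [← measure_biUnion_finset hdisj (fun b _ => hE.inter (hmj b))]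
    congr 1
    ext ω
    simp only [Set.mem_iUnion, Set.mem_inter_iff, Set.mem_ofPred_eq, Finset.mem_Icc, exists_prop]
    constructor
    · intro h
      exact ⟨bus (ω j) k, ⟨bus_pos _ _, bus_le _ _ hk⟩, h, rfl⟩
    · rintro ⟨b, _, h, _⟩; exact h
  have hset : E ∩ {ω | bus (ω i) k = bus (ω j) k}
      = ⋃ b ∈ Finset.Icc 1 k, (E ∩ {ω : Moves | bus (ω j) k = b}) ∩ {ω : Moves | bus (ω i) k = b} := by
    ext ω
    simp only [Set.mem_iUnion, Set.mem_inter_iff, Set.mem_ofPred_eq, Finset.mem_Icc, exists_prop]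
    constructor
    · rintro ⟨h, h'⟩
      exact ⟨bus (ω j) k, ⟨bus_pos _ _, bus_le _ _ hk⟩, ⟨h, rfl⟩, h'⟩
    · rintro ⟨b, _, ⟨h, h1⟩, h2⟩; exact ⟨h, h2.trans h1.symm⟩
  have hdisj2 : Set.PairwiseDisjoint ((Finset.Icc 1 k : Finset ℕ) : Set ℕ)
      (fun b => (E ∩ {ω : Moves | bus (ω j) k = b}) ∩ {ω : Moves | bus (ω i) k = b}) := by
    intro b _ b' _ hbb'
    refine Set.disjoint_left.2 fun ω h1 h2 => hbb' ?_
    exact h1.2.symm.trans h2.2
  rw [hset, measure_biUnion_finset hdisj2 (fun b _ => (hE.inter (hmj b)).inter (hmi b)), hE',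
    Finset.sum_mul]
  refine Finset.sum_congr rfl fun b hb => ?_
  rw [Finset.mem_Icc] at hb
  have hdep' : DepOn S (E ∩ {ω : Moves | bus (ω j) k = b}) := by
    refine hdep.inter fun ω ω' h => ?_
    simp only [Set.mem_ofPred_eq, h j hj]
  obtain ⟨A, hA, hEA⟩ := hdep'.exists_preimage (hE.inter (hmj b))
  have hi' : {ω : Moves | bus (ω i) k = b}
      = (fun ω : Moves => ω i) ⁻¹' {x : ℕ → Bool | bus x k = b} := rfl
  rw [hEA, ← law_bus' i k b hb.1 hb.2, hi']
  exact (indepFun_restrict_eval S i hi).measure_inter_preimage_eq_mul _ _ hA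
    (measurableSet_eq_fun (measurable_bus k) measurable_const)

end Pool.Agent.Work.MP_d01e83_pr
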