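import Pool.Agent.Work.MP_d01e83_pr.Path

set_option autoImplicit false

open MeasureTheory ProbabilityTheory Filter Topology
open scoped ENNReal

namespace Pool.Agent.Work.MP_d01e83_pr

/-- `M(K) = n` and `t` is the first time after `K` at which `1, ..., n+1` are detached. -/
def firstAt (K n t : ℕ) : Set Moves :=
  {ω | maxGroup K ω = n ∧ (∀ j, K < j → j < t → ¬ Detached (n+1) j ω) ∧ Detached (n+1) t ω}

lemma depOn_le_maxGroup (n K : ℕ) (hK : 1 ≤ K) :
    DepOn (Finset.Icc 1 n) {ω : Moves | n ≤ maxGroup K ω} := by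
  intro ω ω' h
  simp only [Set.mem_ofPred_eq, le_maxGroup_iff _ _ _ hK]
  constructor
  · rintro ⟨j, h1, h2, h3⟩
    exact ⟨j, h1, h2, (depOn_detached n j ω ω' h).1 h3⟩
  · rintro ⟨j, h1, h2, h3⟩
    exact ⟨j, h1, h2, (depOn_detached n j ω ω' h).2 h3⟩

lemma depOn_firstAt (K n t : ℕ) (hK : 1 ≤ K) : DepOn (Finset.Icc 1 (n+1)) (firstAt K n t) := by
  intro ω ω' h
  have h1 := (depOn_le_maxGroup n K hK).mono (Finset.Icc_subset_Icc le_rfl (Nat.le_succ n)) ω ω' h
  have h2 := depOn_le_maxGroup (n+1) K hK ω ω' h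
  have h3 : ∀ j, Detached (n+1) j ω ↔ Detached (n+1) j ω' := fun j => depOn_detached (n+1) j ω ω' h
  simp only [Set.mem_ofPred_eq] at h1 h2
  have h4 : maxGroup K ω = n ↔ maxGroup K ω' = n := by omega
  simp only [firstAt, Set.mem_ofPred_eq, h4, h3]

lemma measurableSet_firstAt (K n t : ℕ) : MeasurableSet (firstAt K n t) := by
  have : firstAt K n t = {ω | maxGroup K ω = n} ∩
      ((⋂ j ∈ Set.Ioo K t, {ω : Moves | Detached (n+1) j ω}ᶜ) ∩ {ω | Detached (n+1) t ω}) := by
    ext ω
    simp only [firstAt, Set.mem_ofPred_eq, Set.mem_inter_iff, Set.mem_iInter, Set.mem_Ioo,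
      Set.mem_compl_iff, and_imp]
  rw [this]
  refine (measurableSet_eq_fun (measurable_maxGroup K) measurable_const).inter
    (MeasurableSet.inter ?_ (measurableSet_detached _ _))
  exact MeasurableSet.biInter (Set.to_countable _) fun j _ => (measurableSet_detached _ _).compl

/-- At the random time `t`, newly considered passengers are well separated with
conditional probability at least `1/2`. -/
lemma prob_firstAt_inter (K n t L : ℕ) (hK : 1 ≤ K) (hKt : K < t)
    (hL : 2 * (L * (n + 1 + L)) ≤ t) :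
    busLaw (firstAt K n t) ≤ 2 * busLaw (firstAt K n t ∩ {ω | Detached (n+1+L) t ω}) := by
  set E := firstAt K n t with hE
  have ht : 1 ≤ t := by omega
  have hsub : E ∩ {ω | Detached (n+1+L) t ω}ᶜ
      ⊆ ⋃ i ∈ Finset.Icc (n+2) (n+1+L), ⋃ j ∈ Finset.Icc 1 (i-1),
        E ∩ {ω : Moves | bus (ω i) t = bus (ω j) t} := by
    rintro ω ⟨hω, hnd⟩
    have hd : Detached (n+1) t ω := by rw [hE] at hω; exact hω.2.2
    simp only [Set.mem_compl_iff, Set.mem_ofPred_eq] at hnd
    have key : ∃ i j, n + 2 ≤ i ∧ i ≤ n+1+L ∧ 1 ≤ j ∧ j < i ∧ bus (ω i) t = bus (ω j) t := by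
      by_contra hcon
      push Not at hcon
      apply hnd
      intro i hi j hj hij
      simp only [Set.mem_Icc] at hi hj
      by_contra hne
      have hij' : bus (ω i) t = bus (ω j) t := hij
      rcases Nat.lt_or_ge i (n+2) with h1 | h1
      · rcases Nat.lt_or_ge j (n+2) with h2 | h2
        · exact hne (hd (by simp only [Set.mem_Icc]; omega) (by simp only [Set.mem_Icc]; omega) hij)
        · exact hcon j i h2 hj.2 hi.1 (by omega) hij'.symm
      · rcases lt_trichotomy i j with h3 | h3 | h3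
        · exact hcon j i (by omega) hj.2 hi.1 h3 hij'.symm
        · exact hne h3
        · exact hcon i j h1 hi.2 hj.1 h3 hij'
    obtain ⟨i, j, h1, h2, h3, h4, h5⟩ := key
    simp only [Set.mem_iUnion, exists_prop, Finset.mem_Icc]
    exact ⟨i, ⟨h1, h2⟩, j, ⟨h3, by omega⟩, hω, h5⟩
  have hbad : busLaw (E ∩ {ω | Detached (n+1+L) t ω}ᶜ) ≤ busLaw E / 2 := by
    refine (measure_mono hsub).trans ?_
    refine (measure_biUnion_finset_le _ _).trans ?_
    have h1 : ∀ i ∈ Finset.Icc (n+2) (n+1+L), busLaw (⋃ j ∈ Finset.Icc 1 (i-1),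
        E ∩ {ω : Moves | bus (ω i) t = bus (ω j) t})
        ≤ ((n + 1 + L : ℕ) : ℝ≥0∞) * (busLaw E * ENNReal.ofReal (1 / (t:ℝ))) := by
      intro i hi
      rw [Finset.mem_Icc] at hi
      refine (measure_biUnion_finset_le _ _).trans ?_
      have h2 : ∀ j ∈ Finset.Icc 1 (i-1), busLaw (E ∩ {ω : Moves | bus (ω i) t = bus (ω j) t})
          = busLaw E * ENNReal.ofReal (1 / (t:ℝ)) := by
        intro j hj
        exact prob_inter_same_bus (Finset.Icc 1 (i-1)) E (measurableSet_firstAt K n t)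
          ((depOn_firstAt K n t hK).mono (Finset.Icc_subset_Icc le_rfl (by omega))) i j t
          (by simp; omega) hj ht
      rw [Finset.sum_congr rfl h2, Finset.sum_const, nsmul_eq_mul]
      gcongr
      simp only [Nat.card_Icc]; omega
    refine (Finset.sum_le_sum h1).trans ?_
    rw [Finset.sum_const, nsmul_eq_mul]
    have hcard : (Finset.Icc (n+2) (n+1+L)).card = L := by simp only [Nat.card_Icc]; omega
    rw [hcard]
    have hfin : (L : ℝ≥0∞) * (((n + 1 + L : ℕ) : ℝ≥0∞) * ENNReal.ofReal (1 / (t:ℝ))) ≤ 1 / 2 := by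
      rw [← ENNReal.ofReal_natCast, ← ENNReal.ofReal_natCast (n := n + 1 + L),
        ← ENNReal.ofReal_mul (by positivity), ← ENNReal.ofReal_mul (by positivity)]
      have : (1 / 2 : ℝ≥0∞) = ENNReal.ofReal (1/2) := by
        rw [ENNReal.ofReal_div_of_pos (by norm_num)]; simp
      rw [this]
      apply ENNReal.ofReal_le_ofReal
      have htpos : (0:ℝ) < t := by exact_mod_cast (by omega : 0 < t)
      have hL' : (2:ℝ) * ((L:ℝ) * ((n + 1 + L : ℕ) : ℝ)) ≤ t := by exact_mod_cast hL
      rw [← mul_assoc, mul_one_div, div_le_iff₀ htpos]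
      linarith
    calc (L : ℝ≥0∞) * (((n + 1 + L : ℕ) : ℝ≥0∞) * (busLaw E * ENNReal.ofReal (1 / (t:ℝ))))
        = ((L : ℝ≥0∞) * (((n + 1 + L : ℕ) : ℝ≥0∞) * ENNReal.ofReal (1 / (t:ℝ)))) * busLaw E := by ring
      _ ≤ (1 / 2) * busLaw E := by gcongr
      _ = busLaw E / 2 := by rw [ENNReal.div_eq_inv_mul, ENNReal.div_eq_inv_mul, mul_one]
  have hsplit : busLaw E ≤ busLaw (E ∩ {ω | Detached (n+1+L) t ω}) + busLaw E / 2 := by
    calc busLaw E = busLaw (E ∩ {ω | Detached (n+1+L) t ω})
          + busLaw (E ∩ {ω | Detached (n+1+L) t ω}ᶜ) :=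
        (measure_inter_add_sdiff E (measurableSet_detached _ _)).symm
      _ ≤ _ := by gcongr
  have hE_fin : busLaw E ≠ ∞ := measure_ne_top _ _
  have h2 : busLaw E / 2 + busLaw E / 2 ≤ busLaw (E ∩ {ω | Detached (n+1+L) t ω}) + busLaw E / 2 := by
    rw [ENNReal.add_halves]; exact hsplit
  have h3 : busLaw E / 2 ≤ busLaw (E ∩ {ω | Detached (n+1+L) t ω}) :=
    (ENNReal.add_le_add_iff_right (ENNReal.div_ne_top hE_fin (by norm_num))).1 h2
  calc busLaw E = 2 * (busLaw E / 2) := by
        rw [ENNReal.mul_div_cancel (by norm_num) (by norm_num)]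
    _ ≤ _ := by gcongr

/-- A jump of size at least `L+1` in one time unit, at some time in `(K, A]`. -/
def jumpSet (K A L : ℕ) : Set Moves :=
  {ω | ∃ t, K < t ∧ t ≤ A ∧ maxGroup (t-1) ω + L + 1 ≤ maxGroup t ω}

lemma firstAt_inter_subset_jumpSet (K n t L A : ℕ) (hK : 1 ≤ K) (hKt : K < t) (htA : t ≤ A) :
    firstAt K n t ∩ {ω | Detached (n+1+L) t ω} ⊆ jumpSet K A L := by
  rintro ω ⟨⟨h1, h2, h3⟩, h4⟩
  refine ⟨t, hKt, htA, ?_⟩
  have h5 : maxGroup (t-1) ω ≤ n := by
    by_contra hcon
    push Not at hcon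
    obtain ⟨j, hj1, hj2, hj3⟩ := (le_maxGroup_iff (n+1) (t-1) ω (by omega)).1 hcon
    rcases Nat.lt_or_ge K j with hKj | hKj
    · exact h2 j hKj (by omega) hj3
    · have := (le_maxGroup_iff (n+1) K ω hK).2 ⟨j, hj1, hKj, hj3⟩
      omega
  have h6 : n + 1 + L ≤ maxGroup t ω :=
    (le_maxGroup_iff (n+1+L) t ω (by omega)).2 ⟨t, by omega, le_rfl, h4⟩
  omega

lemma prob_jumpSet (B m : ℕ) (hB : 1 ≤ B) (hm : 1 ≤ m)
    (htight : busLaw {ω | B * m < maxGroup (m^2) ω} ≤ 1 / 2) :
    1 / 8 ≤ busLaw (jumpSet (m^2) (16 * B^2 * m^2) (m / (6 * B))) := by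
  set K := m^2 with hK
  set A := 16 * B^2 * m^2 with hA
  set L := m / (6 * B) with hL
  have hK1 : 1 ≤ K := Nat.one_le_pow _ _ hm
  have hKA : K < A := by rw [hA, hK]; nlinarith [Nat.one_le_pow 2 _ hB, Nat.one_le_pow 2 _ hm]
  have hLm : L * (6 * B) ≤ m := Nat.div_mul_le_self _ _
  -- the good event
  set G : Set Moves := {ω | maxGroup K ω ≤ B * m} ∩ {ω | Detached (B*m+1) A ω} with hG
  have hGprob : 1 / 4 ≤ busLaw G := by
    have hcompl : Gᶜ ⊆ {ω | B * m < maxGroup K ω} ∪ {ω | ¬ Detached (B*m+1) A ω} := by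
      intro ω hω
      simp only [hG, Set.mem_compl_iff, Set.mem_inter_iff, Set.mem_ofPred_eq, not_and_or,
        not_le] at hω
      exact hω
    have h1 : busLaw Gᶜ ≤ 3 / 4 := by
      refine (measure_mono hcompl).trans ((measure_union_le _ _).trans ?_)
      have h2 : busLaw {ω : Moves | ¬ Detached (B*m+1) A ω} ≤ 1 / 4 := by
        refine (prob_not_detached_le _ _ (by omega)).trans ?_
        have : (1 / 4 : ℝ≥0∞) = ENNReal.ofReal (1/4) := by
          rw [ENNReal.ofReal_div_of_pos (by norm_num)]; simp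
        rw [this]
        apply ENNReal.ofReal_le_ofReal
        have hBm : (1:ℝ) ≤ (B:ℝ) * m := by exact_mod_cast Nat.mul_pos hB hm
        have hApos : (0:ℝ) < (A:ℝ) := by exact_mod_cast (by omega : 0 < A)
        rw [div_le_iff₀ hApos, hA]
        push_cast
        nlinarith
      calc busLaw {ω | B * m < maxGroup K ω} + busLaw {ω : Moves | ¬ Detached (B*m+1) A ω}
          ≤ 1 / 2 + 1 / 4 := add_le_add htight h2
        _ = 3 / 4 := by
          rw [← ENNReal.toReal_eq_toReal_iff' (by finiteness) (by finiteness),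
            ENNReal.toReal_add (by finiteness) (by finiteness)]
          simp only [ENNReal.toReal_div, ENNReal.toReal_one, ENNReal.toReal_ofNat]; norm_num
    have hGm : MeasurableSet G := by
      refine MeasurableSet.inter ?_ (measurableSet_detached _ _)
      exact measurableSet_le (measurable_maxGroup K) measurable_const
    have h2 : busLaw G + busLaw Gᶜ = 1 := by rw [measure_add_measure_compl hGm, measure_univ]
    have h3 : (1 : ℝ≥0∞) ≤ busLaw G + 3 / 4 := by
      calc (1 : ℝ≥0∞) = busLaw G + busLaw Gᶜ := h2.symm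
        _ ≤ _ := by gcongr
    have h4 : (1 / 4 : ℝ≥0∞) + 3 / 4 ≤ busLaw G + 3 / 4 := by
      refine le_trans (le_of_eq ?_) h3
      rw [← ENNReal.toReal_eq_toReal_iff' (by finiteness) (by finiteness),
        ENNReal.toReal_add (by finiteness) (by finiteness)]
      simp only [ENNReal.toReal_div, ENNReal.toReal_one, ENNReal.toReal_ofNat]; norm_num
    exact (ENNReal.add_le_add_iff_right (by finiteness)).1 h4
  -- G is covered by the events firstAt
  have hcover : G ⊆ ⋃ n ∈ Finset.range (B*m+1), ⋃ t ∈ Finset.Ioc K A, firstAt K n t := by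
    rintro ω ⟨h1, h2⟩
    simp only [Set.mem_ofPred_eq] at h1 h2
    classical
    have hex : ∃ t, K < t ∧ t ≤ A ∧ Detached (maxGroup K ω + 1) t ω :=
      ⟨A, hKA, le_rfl, h2.mono (by omega)⟩
    set t := Nat.find hex with ht
    have ht1 := Nat.find_spec hex
    simp only [Set.mem_iUnion, exists_prop, Finset.mem_range, Finset.mem_Ioc]
    refine ⟨maxGroup K ω, by omega, t, ⟨ht1.1, ht1.2.1⟩, rfl, fun j hj1 hj2 hj3 => ?_, ht1.2.2⟩
    exact Nat.find_min hex hj2 ⟨hj1, by omega, hj3⟩
  have hdisj : ∀ n t n' t' : ℕ, K < t → K < t' → (n, t) ≠ (n', t') →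
      Disjoint (firstAt K n t) (firstAt K n' t') := by
    intro n t n' t' ht ht' hne
    refine Set.disjoint_left.2 ?_
    rintro ω ⟨h1, h2, h3⟩ ⟨h1', h2', h3'⟩
    have hnn : n = n' := h1.symm.trans h1'
    subst hnn
    rcases lt_trichotomy t t' with h | h | h
    · exact h2' t ht h h3
    · exact hne (by rw [h])
    · exact h2 t' ht' h h3'
  -- sum up
  have hsum : busLaw G ≤ 2 * busLaw (jumpSet K A L) := by
    calc busLaw G ≤ busLaw (⋃ n ∈ Finset.range (B*m+1), ⋃ t ∈ Finset.Ioc K A, firstAt K n t) :=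
          measure_mono hcover
      _ ≤ ∑ n ∈ Finset.range (B*m+1), ∑ t ∈ Finset.Ioc K A, busLaw (firstAt K n t) :=
          (measure_biUnion_finset_le _ _).trans
            (Finset.sum_le_sum fun n _ => measure_biUnion_finset_le _ _)
      _ ≤ ∑ n ∈ Finset.range (B*m+1), ∑ t ∈ Finset.Ioc K A,
            2 * busLaw (firstAt K n t ∩ {ω | Detached (n+1+L) t ω}) := by
          refine Finset.sum_le_sum fun n hn => Finset.sum_le_sum fun t ht => ?_
          rw [Finset.mem_range] at hn
          rw [Finset.mem_Ioc] at ht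
          refine prob_firstAt_inter K n t L hK1 ht.1 ?_
          have h1 : n + 1 + L ≤ 3 * (B * m) := by
            have : L ≤ m := Nat.div_le_self _ _
            have h2 : m ≤ B * m := Nat.le_mul_of_pos_left _ hB
            have h3 : 1 ≤ B * m := Nat.mul_pos hB hm
            omega
          calc 2 * (L * (n + 1 + L)) ≤ 2 * (L * (3 * (B * m))) := by gcongr
            _ = (L * (6 * B)) * m := by ring
            _ ≤ m * m := by gcongr
            _ = K := by rw [hK]; ring
            _ ≤ t := ht.1.le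
      _ = 2 * ∑ n ∈ Finset.range (B*m+1), ∑ t ∈ Finset.Ioc K A,
            busLaw (firstAt K n t ∩ {ω | Detached (n+1+L) t ω}) := by
          rw [Finset.mul_sum]
          refine Finset.sum_congr rfl fun n _ => ?_
          rw [Finset.mul_sum]
      _ ≤ 2 * busLaw (jumpSet K A L) := by
          gcongr
          rw [← Finset.sum_product']
          rw [← measure_biUnion_finset]
          · refine measure_mono ?_
            intro ω hω
            simp only [Set.mem_iUnion, exists_prop, Finset.mem_product, Finset.mem_Ioc] at hω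
            obtain ⟨p, ⟨_, hp1, hp2⟩, hp3⟩ := hω
            exact firstAt_inter_subset_jumpSet K p.1 p.2 L A hK1 hp1 hp2 hp3
          · intro p hp q hq hpq
            simp only [Finset.coe_product, Set.mem_prod, Finset.mem_coe, Finset.mem_Ioc] at hp hq
            refine (hdisj p.1 p.2 q.1 q.2 hp.2.1 hq.2.1 hpq).mono ?_ ?_ <;>
            exact Set.inter_subset_left
          · intro p _
            exact (measurableSet_firstAt _ _ _).inter (measurableSet_detached _ _)
  have h5 : (1 / 4 : ℝ≥0∞) ≤ 2 * busLaw (jumpSet K A L) := hGprob.trans hsum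
  calc (1 / 8 : ℝ≥0∞) = (1 / 4) / 2 := by
        rw [← ENNReal.toReal_eq_toReal_iff' (by finiteness) (by finiteness)]
        simp only [ENNReal.toReal_div, ENNReal.toReal_one, ENNReal.toReal_ofNat]; norm_num
    _ ≤ (2 * busLaw (jumpSet K A L)) / 2 := by gcongr
    _ = busLaw (jumpSet K A L) := by
        rw [mul_comm, ENNReal.mul_div_cancel_right (by norm_num) (by norm_num)]

end Pool.Agent.Work.MP_d01e83_pr
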