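import Pool.Agent.Work.MP_d01e83_pr.Group

set_option autoImplicit false

open MeasureTheory ProbabilityTheory Filter Topology
open scoped ENNReal

namespace Pool.Agent.Work.MP_d01e83_pr

/-- The part of the way from `k` to `k+1` covered by `x`. -/
noncomputable def ramp (x : ℝ) (k : ℕ) : ℝ := max 0 (min 1 (x - k))

lemma interp_eq_sum (a : ℕ → ℕ) (x : ℝ) (hx : 0 ≤ x) (N : ℕ) (hN : x < N) :
    interp a x = (a 0 : ℝ) + ∑ k ∈ Finset.range N, ((a (k+1) : ℝ) - a k) * ramp x k := by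
  have hfl : ⌊x⌋₊ < N := (Nat.floor_lt hx).2 hN
  obtain ⟨d, rfl⟩ : ∃ d, N = ⌊x⌋₊ + 1 + d := ⟨N - (⌊x⌋₊ + 1), by omega⟩
  have h1 : ∀ k < ⌊x⌋₊, ramp x k = 1 := by
    intro k hk
    have h2 : ((k:ℝ) + 1) ≤ x := by
      have h3 : ((k + 1 : ℕ) : ℝ) ≤ ⌊x⌋₊ := by exact_mod_cast hk
      push_cast at h3
      exact h3.trans (Nat.floor_le hx)
    simp only [ramp]
    rw [min_eq_left (by linarith), max_eq_right (by norm_num)]
  have h2 : ramp x ⌊x⌋₊ = x - ⌊x⌋₊ := by
    have h3 := Nat.floor_le hx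
    have h4 := Nat.lt_floor_add_one x
    simp only [ramp]
    rw [min_eq_right (by linarith), max_eq_right (by linarith)]
  have h3 : ∀ k, ⌊x⌋₊ < k → ramp x k = 0 := by
    intro k hk
    have h4 := Nat.lt_floor_add_one x
    have h5 : ((⌊x⌋₊ + 1 : ℕ) : ℝ) ≤ k := by exact_mod_cast hk
    push_cast at h5
    simp only [ramp]
    rw [max_eq_left]
    exact (min_le_right _ _).trans (by linarith)
  rw [Finset.sum_range_add, Finset.sum_range_succ, h2]
  have hs1 : ∑ k ∈ Finset.range ⌊x⌋₊, ((a (k+1) : ℝ) - a k) * ramp x k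
      = (a ⌊x⌋₊ : ℝ) - a 0 := by
    rw [← Finset.sum_range_sub (fun k => (a k : ℝ))]
    refine Finset.sum_congr rfl fun k hk => ?_
    rw [h1 k (Finset.mem_range.1 hk), mul_one]
  have hs2 : ∑ k ∈ Finset.range d, ((a (⌊x⌋₊ + 1 + k + 1) : ℝ) - a (⌊x⌋₊ + 1 + k))
      * ramp x (⌊x⌋₊ + 1 + k) = 0 := by
    refine Finset.sum_eq_zero fun k _ => ?_
    rw [h3 _ (by omega), mul_zero]
  rw [hs1, hs2]
  simp only [interp]
  ring

lemma continuous_ramp (k : ℕ) : Continuous (fun x : ℝ => ramp x k) := by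
  unfold ramp; fun_prop

/-- The interpolation depends continuously on the sequence and on time. -/
lemma continuousOn_interp :
    ContinuousOn (fun p : (ℕ → ℕ) × ℝ => interp p.1 p.2) {p | 0 ≤ p.2} := by
  intro p hp
  obtain ⟨N, hN⟩ := exists_nat_gt p.2
  have hopen : IsOpen {q : (ℕ → ℕ) × ℝ | q.2 < N} := isOpen_lt continuous_snd continuous_const
  have hcont : Continuous (fun q : (ℕ → ℕ) × ℝ =>
      (q.1 0 : ℝ) + ∑ k ∈ Finset.range N, ((q.1 (k+1) : ℝ) - q.1 k) * ramp q.2 k) := by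
    have hc : ∀ k : ℕ, Continuous (fun q : (ℕ → ℕ) × ℝ => (q.1 k : ℝ)) := fun k =>
      (continuous_of_discreteTopology (f := fun n : ℕ => (n : ℝ))).comp
        ((continuous_apply k).comp continuous_fst)
    refine (hc 0).add (continuous_finsetSum _ fun k _ => ?_)
    exact ((hc (k+1)).sub (hc k)).mul ((continuous_ramp k).comp continuous_snd)
  refine ContinuousWithinAt.congr_of_eventuallyEq hcont.continuousAt.continuousWithinAt ?_ ?_
  · have : {q : (ℕ → ℕ) × ℝ | q.2 < N} ∈ 𝓝[{p | 0 ≤ p.2}] p :=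
      mem_nhdsWithin_of_mem_nhds (hopen.mem_nhds hN)
    filter_upwards [this, self_mem_nhdsWithin] with q hq hq'
    exact interp_eq_sum q.1 q.2 hq' N hq
  · exact interp_eq_sum p.1 p.2 hp N hN

/-- The rescaled path of an integer sequence `a`: `t ↦ a(m^2 t)/m` for `t ≥ 1/m^2`, with `a`
interpolated linearly, and the constant `a(1)/m` for `t ≤ 1/m^2`. -/
noncomputable def scaledPath (m : ℕ) (a : ℕ → ℕ) : C(Set.Ioi (0:ℝ), ℝ) where
  toFun t := interp a (max 1 ((m:ℝ)^2 * t)) / m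
  continuous_toFun := by
    have h1 : Continuous (fun t : Set.Ioi (0:ℝ) => ((a, max 1 ((m:ℝ)^2 * t)) : (ℕ → ℕ) × ℝ)) := by
      fun_prop
    have h2 : Continuous (fun t : Set.Ioi (0:ℝ) => interp a (max 1 ((m:ℝ)^2 * t))) := by
      refine continuousOn_interp.comp_continuous h1 fun t => ?_
      simp only [Set.mem_ofPred_eq]
      exact le_max_of_le_left zero_le_one
    exact h2.div_const _

lemma continuous_scaledPath (m : ℕ) : Continuous (scaledPath m) := by
  refine ContinuousMap.continuous_of_continuous_uncurry _ ?_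
  have h1 : Continuous (fun p : (ℕ → ℕ) × Set.Ioi (0:ℝ) =>
      ((p.1, max 1 ((m:ℝ)^2 * p.2)) : (ℕ → ℕ) × ℝ)) := by
    fun_prop
  have h2 : Continuous (fun p : (ℕ → ℕ) × Set.Ioi (0:ℝ) =>
      interp p.1 (max 1 ((m:ℝ)^2 * p.2))) := by
    refine continuousOn_interp.comp_continuous h1 fun t => ?_
    simp only [Set.mem_ofPred_eq]
    exact le_max_of_le_left zero_le_one
  exact h2.div_const _

end Pool.Agent.Work.MP_d01e83_pr
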